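import Pool.Agent.helper62.VQ.SpecE

set_option autoImplicit false

open scoped MatrixGroups ContDiff Topology UpperHalfPlane
open UpperHalfPlane MeasureTheory Filter Set

namespace Pool.Agent.VQE

open Pool.Agent.RS

noncomputable section

lemma DEC_alg (η b c b' : ℝ) (h0 : 0 ≤ η) (h1 : η ≤ 1 / 200) (hc : |c| ≤ |b| / 4) (hb : |b' + b| ≤ η * (|b| + |c|)) :
    9 / 5 * b ^ 2 + 2 * (b * b') ≤ 0 := by
  have hb0 := abs_nonneg b
  have e1 : |b' + b| ≤ 1 / 160 * |b| := by
    have h2 : |b| + |c| ≤ 5 / 4 * |b| := by linarith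
    have h3 : η * (|b| + |c|) ≤ 1 / 200 * (5 / 4 * |b|) :=
      mul_le_mul h1 h2 (by positivity) (by norm_num)
    linarith
  have e2 : b * (b' + b) ≤ |b| * |b' + b| := by
    rw [← abs_mul]
    exact le_abs_self _
  have e3 : |b| * |b' + b| ≤ 1 / 160 * b ^ 2 := by
    have h4 := mul_le_mul_of_nonneg_left e1 hb0
    have h5 : |b| * |b| = b ^ 2 := by rw [abs_mul_abs_self, pow_two]
    nlinarith
  nlinarith [sq_nonneg b]

theorem DEC_proof : DEC_stmt := by
  intro η T β χ β' h0 h1 hT h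
  have hd : ∀ t ∈ Icc 0 T, HasDerivAt (fun s => Real.exp (9 / 5 * s) * β s ^ 2)
      (Real.exp (9 / 5 * t) * (9 / 5 * β t ^ 2 + 2 * (β t * β' t))) t := by
    intro t ht
    have e1 : HasDerivAt (fun s : ℝ => Real.exp (9 / 5 * s)) (Real.exp (9 / 5 * t) * (9 / 5 * 1)) t :=
      ((hasDerivAt_id t).const_mul (9 / 5)).exp
    have e2 := e1.mul ((h t ht).1.pow 2)
    refine e2.congr_deriv ?_
    simp
    ring
  have hanti : AntitoneOn (fun s => Real.exp (9 / 5 * s) * β s ^ 2) (Icc 0 T) := by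
    refine antitoneOn_of_deriv_nonpos (convex_Icc 0 T) (fun t ht => (hd t ht).continuousAt.continuousWithinAt) ?_ ?_
    · intro t ht
      rw [interior_Icc] at ht
      exact (hd t (Ioo_subset_Icc_self ht)).differentiableAt.differentiableWithinAt
    · intro t ht
      rw [interior_Icc] at ht
      have ht' := Ioo_subset_Icc_self ht
      rw [(hd t ht').deriv]
      exact mul_nonpos_of_nonneg_of_nonpos (Real.exp_pos _).le (DEC_alg η (β t) (χ t) (β' t) h0 h1 (h t ht').2.1 (h t ht').2.2)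
  have h2 := hanti (left_mem_Icc.2 hT) (right_mem_Icc.2 hT) hT
  simp only [mul_zero, Real.exp_zero, one_mul] at h2
  have h3 : Real.exp (9 / 5 * T) * Real.exp (-(9 / 5 * T)) = 1 := by
    rw [← Real.exp_add]
    simp
  have h4 : (Real.exp (-(9 / 10 * T))) ^ 2 = Real.exp (-(9 / 5 * T)) := by
    rw [← Real.exp_nat_mul]
    congr 1
    push_cast
    ring
  have h5 : |β T| ^ 2 ≤ (|β 0| * Real.exp (-(9 / 10 * T))) ^ 2 := by
    rw [mul_pow, sq_abs, sq_abs, h4]
    have h6 := mul_le_mul_of_nonneg_right h2 (Real.exp_pos (-(9 / 5 * T))).le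
    calc β T ^ 2 = Real.exp (9 / 5 * T) * Real.exp (-(9 / 5 * T)) * β T ^ 2 := by rw [h3, one_mul]
      _ = Real.exp (9 / 5 * T) * β T ^ 2 * Real.exp (-(9 / 5 * T)) := by ring
      _ ≤ _ := h6
  exact (sq_le_sq₀ (abs_nonneg _) (by positivity)).1 h5

end

end Pool.Agent.VQE
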