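import Pool.Agent.helper62.VQ.SpecE
import Mathlib.Analysis.ODE.ExistUnique
import Mathlib.Analysis.ODE.Gronwall

set_option autoImplicit false

open scoped MatrixGroups ContDiff Topology UpperHalfPlane NNReal
open UpperHalfPlane MeasureTheory Filter Set

namespace Pool.Agent.VQE

open Pool.Agent.RS

noncomputable section

/-- coordinatewise truncation -/
def GLO_cl (R : ℝ) (x : ℝ × ℝ) : ℝ × ℝ := (max (-R) (min R x.1), max (-R) (min R x.2))

lemma GLO_cl1 (R a b : ℝ) : |max (-R) (min R a) - max (-R) (min R b)| ≤ |a - b| := by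
  have h1 : LipschitzWith 1 (fun z : ℝ => max (-R) (min R z)) :=
    (LipschitzWith.id.const_min R).const_max (-R)
  have h2 := h1.dist_le_mul a b
  rw [NNReal.coe_one, one_mul, Real.dist_eq, Real.dist_eq] at h2
  exact h2

lemma GLO_cl2 (R : ℝ) (hR : 0 ≤ R) (a : ℝ) : |max (-R) (min R a)| ≤ R := by
  rw [abs_le]
  exact ⟨le_max_left _ _, max_le (by linarith) (min_le_left _ _)⟩

lemma GLO_cl3 (R : ℝ) (hR : 0 ≤ R) (a : ℝ) : |max (-R) (min R a)| ≤ |a| := by
  rw [abs_le]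
  constructor
  · rcases le_total R a with h | h
    · rw [min_eq_left h]
      exact le_max_of_le_right (by linarith [abs_nonneg a])
    · rw [min_eq_right h]
      exact le_max_of_le_right (neg_abs_le a)
  · apply max_le
    · linarith [abs_nonneg a]
    · exact (min_le_right _ _).trans (le_abs_self a)

lemma GLO_cl4 (R a : ℝ) (h : |a| ≤ R) : max (-R) (min R a) = a := by
  rw [abs_le] at h
  rw [min_eq_right h.2, max_eq_right h.1]

lemma GLO_cl_lip (R : ℝ) (x y : ℝ × ℝ) : ‖GLO_cl R x - GLO_cl R y‖ ≤ ‖x - y‖ := by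
  rw [Prod.norm_def, Prod.norm_def]
  exact max_le_max (GLO_cl1 R x.1 y.1) (GLO_cl1 R x.2 y.2)

lemma GLO_cl_le (R : ℝ) (hR : 0 ≤ R) (x : ℝ × ℝ) : ‖GLO_cl R x‖ ≤ R := by
  rw [Prod.norm_def]
  exact max_le (GLO_cl2 R hR x.1) (GLO_cl2 R hR x.2)

lemma GLO_cl_le' (R : ℝ) (hR : 0 ≤ R) (x : ℝ × ℝ) : ‖GLO_cl R x‖ ≤ ‖x‖ := by
  rw [Prod.norm_def, Prod.norm_def]
  exact max_le_max (GLO_cl3 R hR x.1) (GLO_cl3 R hR x.2)

lemma GLO_cl_eq (R : ℝ) (x : ℝ × ℝ) (h : ‖x‖ ≤ R) : GLO_cl R x = x := by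
  rw [Prod.norm_def] at h
  exact Prod.ext (GLO_cl4 R x.1 ((le_max_left _ _).trans h)) (GLO_cl4 R x.2 ((le_max_right _ _).trans h))

/-- time reversal -/
lemma GLO_rev (F : ℝ → ℝ × ℝ → ℝ × ℝ) (f : ℝ → ℝ × ℝ) (s : Set ℝ) (t : ℝ)
    (h : HasDerivWithinAt f (F (-t) (f (-t))) s (-t)) :
    HasDerivWithinAt (fun u => f (-u)) (-F (-t) (f (-t))) (Neg.neg ⁻¹' s) t := by
  have h1 := h.scomp t ((hasDerivAt_neg t).hasDerivWithinAt (s := Neg.neg ⁻¹' s)) (fun u hu => hu)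
  rw [neg_one_smul] at h1
  exact h1

/-- existence on `[-T, T]` -/
lemma GLO_ex (F : ℝ → ℝ × ℝ → ℝ × ℝ) (K : ℝ≥0) (hc : ∀ x, Continuous (fun t => F t x)) (hK : ∀ t, LipschitzWith K (F t))
    (x₀ : ℝ × ℝ) (T : ℝ) (hT : 0 < T) :
    ∃ x : ℝ → ℝ × ℝ, x 0 = x₀ ∧ ∀ t ∈ Icc (-T) T, HasDerivWithinAt x (F t (x t)) (Icc (-T) T) t := by
  obtain ⟨M, hM⟩ := (isCompact_Icc (a := -T) (b := T)).exists_bound_of_continuousOn (hc 0).continuousOn
  have h0T : (0 : ℝ) ∈ Icc (-T) T := ⟨by linarith, hT.le⟩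
  have hM0 : 0 ≤ M := (norm_nonneg _).trans (hM 0 h0T)
  obtain ⟨R, hRdef⟩ : ∃ R, R = gronwallBound ‖x₀‖ K M T := ⟨_, rfl⟩
  have hmono : Monotone (gronwallBound ‖x₀‖ K M) := gronwallBound_mono (norm_nonneg _) hM0 K.2
  have hR : 0 ≤ R := by
    have := hmono hT.le
    rw [gronwallBound_x0] at this
    rw [hRdef]
    exact (norm_nonneg _).trans this
  have hgr : ∀ t ∈ Icc (-T) T, ∀ x, ‖F t (GLO_cl R x)‖ ≤ K * ‖GLO_cl R x‖ + M := by
    intro t ht x
    have h1 := (hK t).dist_le_mul (GLO_cl R x) 0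
    rw [dist_eq_norm, dist_eq_norm, sub_zero] at h1
    have h2 := hM t ht
    calc ‖F t (GLO_cl R x)‖ = ‖(F t (GLO_cl R x) - F t 0) + F t 0‖ := by rw [sub_add_cancel]
      _ ≤ ‖F t (GLO_cl R x) - F t 0‖ + ‖F t 0‖ := norm_add_le _ _
      _ ≤ _ := add_le_add h1 h2
  have hB0 : 0 ≤ (K : ℝ) * R + M := by positivity
  obtain ⟨B, hB⟩ : ∃ B : ℝ≥0, (B : ℝ) = K * R + M := ⟨⟨_, hB0⟩, rfl⟩
  obtain ⟨T', hT'⟩ : ∃ T' : ℝ≥0, (T' : ℝ) = T := ⟨⟨T, hT.le⟩, rfl⟩
  have hlip : ∀ t, LipschitzWith K (fun x => F t (GLO_cl R x)) := by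
    intro t
    have h1 : LipschitzWith 1 (GLO_cl R) := by
      apply LipschitzWith.of_dist_le_mul
      intro x y
      rw [NNReal.coe_one, one_mul, dist_eq_norm, dist_eq_norm]
      exact GLO_cl_lip R x y
    have h2 := (hK t).comp h1
    rw [mul_one] at h2
    exact h2
  have hPL : IsPicardLindelof (fun (t : ℝ) (x : ℝ × ℝ) => F t (GLO_cl R x)) (⟨0, h0T⟩ : Icc (-T) T) x₀ (B * T') 0 B K := by
    constructor
    · intro t _
      exact (hlip t).lipschitzOnWith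
    · intro x _
      exact (hc (GLO_cl R x)).continuousOn
    · intro t ht x _
      rw [hB]
      refine (hgr t ht x).trans ?_
      have := GLO_cl_le R hR x
      gcongr
    · push_cast
      rw [hT', sub_zero, zero_sub, neg_neg, max_self, sub_zero]
  obtain ⟨α, hα0, hα⟩ := hPL.exists_eq_forall_mem_Icc_hasDerivWithinAt₀
  have hα0 : α 0 = x₀ := hα0
  have hcont : ContinuousOn α (Icc (-T) T) := fun t ht => (hα t ht).continuousWithinAt
  have hb1 : ∀ t ∈ Icc 0 T, ‖α t‖ ≤ gronwallBound ‖x₀‖ K M (t - 0) := by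
    apply norm_le_gronwallBound_of_norm_deriv_right_le (f' := fun t => F t (GLO_cl R (α t)))
    · exact hcont.mono (Icc_subset_Icc_left (by linarith))
    · intro t ht
      have h1 := hα t ⟨by linarith [ht.1], ht.2.le⟩
      have h2 : Icc t T ⊆ Icc (-T) T := Icc_subset_Icc_left (by linarith [ht.1])
      exact (h1.mono h2).mono_of_mem_nhdsWithin (Icc_mem_nhdsGE ht.2)
    · rw [hα0]
    · intro t ht
      refine (hgr t ⟨by linarith [ht.1], ht.2.le⟩ _).trans ?_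
      have := GLO_cl_le' R hR (α t)
      gcongr
  have hb2 : ∀ t ∈ Icc 0 T, ‖α (-t)‖ ≤ gronwallBound ‖x₀‖ K M (t - 0) := by
    apply norm_le_gronwallBound_of_norm_deriv_right_le (f := fun t => α (-t)) (f' := fun t => -F (-t) (GLO_cl R (α (-t))))
    · refine hcont.comp continuous_neg.continuousOn ?_
      intro t ht
      exact ⟨by linarith [ht.2], by linarith [ht.1]⟩
    · intro t ht
      have h1 := hα (-t) ⟨by linarith [ht.2], by linarith [ht.1]⟩
      have h1' := GLO_rev (fun t x => F t (GLO_cl R x)) α _ t h1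
      have h2 : Icc t T ⊆ Neg.neg ⁻¹' (Icc (-T) T) := by
        intro u hu
        exact ⟨by linarith [hu.2], by linarith [hu.1, ht.1]⟩
      exact (h1'.mono h2).mono_of_mem_nhdsWithin (Icc_mem_nhdsGE ht.2)
    · show ‖α (-0)‖ ≤ _
      rw [neg_zero, hα0]
    · intro t ht
      rw [norm_neg]
      refine (hgr (-t) ⟨by linarith [ht.2], by linarith [ht.1]⟩ _).trans ?_
      have := GLO_cl_le' R hR (α (-t))
      gcongr
  refine ⟨α, hα0, fun t ht => ?_⟩
  have h1 : ‖α t‖ ≤ R := by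
    rcases le_total 0 t with h | h
    · refine (hb1 t ⟨h, ht.2⟩).trans ?_
      rw [hRdef, sub_zero]
      exact hmono ht.2
    · have h2 := hb2 (-t) ⟨by linarith, by linarith [ht.1]⟩
      rw [neg_neg] at h2
      refine h2.trans ?_
      rw [hRdef, sub_zero]
      exact hmono (by linarith [ht.1])
  have h2 := hα t ht
  simp only [GLO_cl_eq R _ h1] at h2
  exact h2

/-- Gronwall for positive times -/
lemma GLO_gron (F : ℝ → ℝ × ℝ → ℝ × ℝ) (K : ℝ≥0) (hK : ∀ t, LipschitzWith K (F t)) (f g : ℝ → ℝ × ℝ)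
    (hf : ∀ t, HasDerivAt f (F t (f t)) t) (hg : ∀ t, HasDerivAt g (F t (g t)) t) (t : ℝ) (ht : 0 ≤ t) :
    dist (f t) (g t) ≤ Real.exp (K * t) * dist (f 0) (g 0) := by
  have h1 := dist_le_of_trajectories_ODE (a := 0) (b := t) hK (fun s _ => (hf s).continuousAt.continuousWithinAt)
    (fun s _ => (hf s).hasDerivWithinAt) (fun s _ => (hg s).continuousAt.continuousWithinAt)
    (fun s _ => (hg s).hasDerivWithinAt) le_rfl t ⟨ht, le_rfl⟩
  rw [sub_zero] at h1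
  linarith

theorem GLO_proof : GLO_stmt := by
  intro F L hc hL
  obtain ⟨K, hKL⟩ : ∃ K : ℝ≥0, L ≤ K := ⟨L.toNNReal, Real.le_coe_toNNReal L⟩
  have hK : ∀ t, LipschitzWith K (F t) := by
    intro t
    apply LipschitzWith.of_dist_le_mul
    intro x y
    rw [dist_eq_norm, dist_eq_norm]
    exact (hL t x y).trans (mul_le_mul_of_nonneg_right hKL (norm_nonneg _))
  have hex : ∀ (x₀ : ℝ × ℝ) (n : ℕ), ∃ x : ℝ → ℝ × ℝ, x 0 = x₀ ∧
      ∀ t ∈ Ioo (-((n : ℝ) + 1)) ((n : ℝ) + 1), HasDerivAt x (F t (x t)) t := by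
    intro x₀ n
    obtain ⟨x, hx0, hx⟩ := GLO_ex F K hc hK x₀ ((n : ℝ) + 1) (by positivity)
    exact ⟨x, hx0, fun t ht => (hx t (Ioo_subset_Icc_self ht)).hasDerivAt (Icc_mem_nhds ht.1 ht.2)⟩
  choose Y hY0 hY using hex
  have hun : ∀ (x₀ : ℝ × ℝ) (n m : ℕ), n ≤ m → ∀ t ∈ Ioo (-((n : ℝ) + 1)) ((n : ℝ) + 1), Y x₀ n t = Y x₀ m t := by
    intro x₀ n m hnm
    have hnm' : (n : ℝ) ≤ m := by exact_mod_cast hnm
    have h0 : (0 : ℝ) ∈ Ioo (-((n : ℝ) + 1)) ((n : ℝ) + 1) := ⟨by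
      have : (0 : ℝ) ≤ n := Nat.cast_nonneg n
      linarith, by positivity⟩
    have h := ODE_solution_unique_of_mem_Ioo (v := F) (s := fun _ => univ) (K := K) (fun t _ => (hK t).lipschitzOnWith) h0
      (f := Y x₀ n) (g := Y x₀ m) (fun t ht => ⟨hY x₀ n t ht, mem_univ _⟩)
      (fun t ht => ⟨hY x₀ m t ⟨by linarith [ht.1], by linarith [ht.2]⟩, mem_univ _⟩) (by rw [hY0, hY0])
    exact h
  obtain ⟨Φ, hΦ⟩ : ∃ Φ : ℝ → ℝ × ℝ → ℝ × ℝ, Φ = fun t x => Y x ⌈|t|⌉₊ t := ⟨_, rfl⟩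
  have hΦ' : ∀ (N : ℕ) (x : ℝ × ℝ) (t : ℝ), |t| ≤ N → Φ t x = Y x N t := by
    intro N x t ht
    have h1 : ⌈|t|⌉₊ ≤ N := Nat.ceil_le.2 ht
    have h2 : |t| ≤ (⌈|t|⌉₊ : ℝ) := Nat.le_ceil _
    have h3 := abs_le.1 h2
    rw [hΦ]
    exact hun x _ N h1 t ⟨by linarith [h3.1], by linarith [h3.2]⟩
  have hd : ∀ (x : ℝ × ℝ) (t : ℝ), HasDerivAt (fun s => Φ s x) (F t (Φ t x)) t := by
    intro x t
    obtain ⟨N, hN⟩ : ∃ N : ℕ, N = ⌈|t|⌉₊ + 1 := ⟨_, rfl⟩
    have h2 : |t| + 1 ≤ N := by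
      rw [hN]
      push_cast
      linarith [Nat.le_ceil |t|]
    have h3 := abs_le.1 (show |t| ≤ N by linarith)
    have h4 := hY x N t ⟨by linarith [h3.1], by linarith [h3.2]⟩
    rw [hΦ' N x t (by linarith)]
    refine h4.congr_of_eventuallyEq ?_
    have h5 : ∀ᶠ s in 𝓝 t, |s| < |t| + 1 := continuous_abs.continuousAt.eventually_lt_const (by linarith)
    filter_upwards [h5] with s hs
    exact hΦ' N x s (by linarith)
  have hz : ∀ x, Φ 0 x = x := by
    intro x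
    rw [hΦ' 0 x 0 (by simp), hY0]
  refine ⟨Φ, hz, hd, fun t => ?_⟩
  rcases le_total 0 t with ht | ht
  · have h1 : LipschitzWith (Real.toNNReal (Real.exp (K * t))) (Φ t) := by
      apply LipschitzWith.of_dist_le_mul
      intro x y
      rw [Real.coe_toNNReal _ (Real.exp_pos _).le]
      have h2 := GLO_gron F K hK (fun s => Φ s x) (fun s => Φ s y) (hd x) (hd y) t ht
      simp only [hz] at h2
      exact h2
    exact h1.continuous
  · have h1 : LipschitzWith (Real.toNNReal (Real.exp (K * (-t)))) (Φ t) := by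
      apply LipschitzWith.of_dist_le_mul
      intro x y
      rw [Real.coe_toNNReal _ (Real.exp_pos _).le]
      have hK' : ∀ s, LipschitzWith K (fun x => -F (-s) x) := by
        intro s
        apply LipschitzWith.of_dist_le_mul
        intro x y
        rw [dist_neg_neg]
        exact (hK (-s)).dist_le_mul x y
      have hrev : ∀ x s, HasDerivAt (fun u => Φ (-u) x) (-F (-s) (Φ (-s) x)) s := by
        intro x s
        have h3 := GLO_rev F (fun u => Φ u x) univ s ((hd x (-s)).hasDerivWithinAt)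
        rw [preimage_univ, hasDerivWithinAt_univ] at h3
        exact h3
      have h2 := GLO_gron (fun s x => -F (-s) x) K hK' (fun s => Φ (-s) x) (fun s => Φ (-s) y) (hrev x) (hrev y) (-t) (by linarith)
      simp only [neg_neg, neg_zero, hz] at h2
      exact h2
    exact h1.continuous

end

end Pool.Agent.VQE
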