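import Pool.Agent.helper62.VQ.SpecE

set_option autoImplicit false

open scoped MatrixGroups ContDiff Topology UpperHalfPlane
open UpperHalfPlane MeasureTheory Filter Set

namespace Pool.Agent.VQE

open Pool.Agent.RS

noncomputable section

lemma LYA_alg (η lam F b c b' c' : ℝ) (h0 : 0 ≤ η) (h1 : η ≤ 1 / 200) (hl : lam ≤ 1 / 4) (hF : 0 ≤ F)
    (hb : |b' + b| ≤ η * (|b| + |c|) + F) (hc : |c' - c| ≤ η * (|b| + |c|) + F) :
    0 ≤ (2 * (c * c') - (b * b') / 8 - 16 * lam * F ^ 2) - (c ^ 2 - b ^ 2 / 16 - 8 * F ^ 2) := by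
  obtain ⟨u, hu⟩ : ∃ u : ℝ, u = |b| := ⟨_, rfl⟩
  obtain ⟨v, hv⟩ : ∃ v : ℝ, v = |c| := ⟨_, rfl⟩
  have hu0 : 0 ≤ u := by rw [hu]; exact abs_nonneg b
  have hv0 : 0 ≤ v := by rw [hv]; exact abs_nonneg c
  have hu2 : u ^ 2 = b ^ 2 := by rw [hu, sq_abs]
  have hv2 : v ^ 2 = c ^ 2 := by rw [hv, sq_abs]
  rw [← hu, ← hv] at hb hc
  have e0 : η * (u + v) ≤ 1 / 200 * (u + v) := mul_le_mul_of_nonneg_right h1 (by linarith)
  have e1 : -(v * (1 / 200 * (u + v) + F)) ≤ c * (c' - c) := by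
    have h2 : |c * (c' - c)| ≤ v * (1 / 200 * (u + v) + F) := by
      rw [abs_mul, ← hv]
      exact mul_le_mul_of_nonneg_left (by linarith) hv0
    exact (abs_le.1 h2).1
  have e2 : b * (b' + b) ≤ u * (1 / 200 * (u + v) + F) := by
    have h2 : |b * (b' + b)| ≤ u * (1 / 200 * (u + v) + F) := by
      rw [abs_mul, ← hu]
      exact mul_le_mul_of_nonneg_left (by linarith) hu0
    exact (abs_le.1 h2).2
  have e3 : lam * F ^ 2 ≤ 1 / 4 * F ^ 2 := mul_le_mul_of_nonneg_right hl (sq_nonneg F)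
  nlinarith [sq_nonneg (v - 2 * F), sq_nonneg (u - 2 * F), sq_nonneg (u - v), sq_nonneg F, sq_nonneg u, sq_nonneg v]

theorem LYA_proof : LYA_stmt := by
  intro η F0 lam T β χ β' χ' h0 h1 hF0 hl0 hl1 hT h
  obtain ⟨F, hF⟩ : ∃ F : ℝ → ℝ, F = fun t => F0 * Real.exp (lam * t) := ⟨_, rfl⟩
  obtain ⟨V, hV⟩ : ∃ V : ℝ → ℝ, V = fun t => χ t ^ 2 - β t ^ 2 / 16 - 8 * F t ^ 2 := ⟨_, rfl⟩
  have hFd : ∀ t, HasDerivAt F (lam * F t) t := by
    intro t
    have e1 : HasDerivAt (fun s : ℝ => Real.exp (lam * s)) (Real.exp (lam * t) * (lam * 1)) t :=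
      ((hasDerivAt_id t).const_mul lam).exp
    have e2 := e1.const_mul F0
    rw [hF]
    refine e2.congr_deriv ?_
    ring
  have hFn : ∀ t, 0 ≤ F t := by
    intro t
    rw [hF]
    positivity
  have hVd : ∀ t ∈ Icc 0 T, HasDerivAt V (2 * (χ t * χ' t) - (β t * β' t) / 8 - 16 * lam * F t ^ 2) t := by
    intro t ht
    have e1 := (((h t ht).2.1.pow 2).sub (((h t ht).1.pow 2).div_const 16)).sub (((hFd t).pow 2).const_mul 8)
    rw [hV]
    refine e1.congr_deriv ?_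
    simp
    ring
  have hd : ∀ t ∈ Icc 0 T, HasDerivAt (fun s => Real.exp (-s) * V s)
      (Real.exp (-t) * ((2 * (χ t * χ' t) - (β t * β' t) / 8 - 16 * lam * F t ^ 2) - V t)) t := by
    intro t ht
    have e1 : HasDerivAt (fun s : ℝ => Real.exp (-s)) (Real.exp (-t) * (-1)) t := (hasDerivAt_id t).neg.exp
    have e2 := e1.mul (hVd t ht)
    refine e2.congr_deriv ?_
    ring
  have hmono : MonotoneOn (fun s => Real.exp (-s) * V s) (Icc 0 T) := by
    refine monotoneOn_of_deriv_nonneg (convex_Icc 0 T) (fun t ht => (hd t ht).continuousAt.continuousWithinAt) ?_ ?_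
    · intro t ht
      rw [interior_Icc] at ht
      exact (hd t (Ioo_subset_Icc_self ht)).differentiableAt.differentiableWithinAt
    · intro t ht
      rw [interior_Icc] at ht
      have ht' := Ioo_subset_Icc_self ht
      rw [(hd t ht').deriv]
      have h2 := (h t ht').2.2
      have h3 : F t = F0 * Real.exp (lam * t) := by rw [hF]
      rw [← h3] at h2
      have h4 := LYA_alg η lam (F t) (β t) (χ t) (β' t) (χ' t) h0 h1 hl1 (hFn t) h2.1 h2.2
      have h5 : V t = χ t ^ 2 - β t ^ 2 / 16 - 8 * F t ^ 2 := by rw [hV]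
      rw [h5]
      exact mul_nonneg (Real.exp_pos _).le h4
  have h2 := hmono (left_mem_Icc.2 hT) (right_mem_Icc.2 hT) hT
  simp only [neg_zero, Real.exp_zero, one_mul] at h2
  have h3 : Real.exp T * V 0 ≤ Real.exp T * (Real.exp (-T) * V T) := mul_le_mul_of_nonneg_left h2 (Real.exp_pos T).le
  have h4 : Real.exp T * (Real.exp (-T) * V T) = V T := by
    rw [← mul_assoc, ← Real.exp_add]
    simp
  rw [h4] at h3
  have h5 : V 0 = χ 0 ^ 2 - β 0 ^ 2 / 16 - 8 * F0 ^ 2 := by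
    rw [hV, hF]
    simp
  have h6 : V T = χ T ^ 2 - β T ^ 2 / 16 - 8 * (F0 * Real.exp (lam * T)) ^ 2 := by
    rw [hV, hF]
  rw [h5, h6] at h3
  exact h3

end

end Pool.Agent.VQE
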